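import Pool.Agent.Helper13.RS.St

set_option autoImplicit false

namespace Pool.Agent.Helper71.RS

open Pool.Agent.Helper13.RS Finset

theorem e2_cases (a : ℕ → ℤ) : ((2 : ℤ) ∣ a 2 ∧ e2 a = 1) ∨ (¬ (2 : ℤ) ∣ a 2 ∧ e2 a = 2) := by
  unfold e2
  by_cases h : (2 : ℤ) ∣ a 2
  · left; exact ⟨h, by rw [if_pos h]⟩
  · right; exact ⟨h, by rw [if_neg h]⟩

theorem hLO (h : StLw) : StLO := by
  classical
  obtain ⟨c₀, κ, X₀, hc, hκ, hκ4, hX0, H⟩ := h
  refine ⟨c₀, κ, X₀, hc, hκ, hκ4, hX0, ?_⟩
  intro w a m P X hw hX hwX hm hP hB hPp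
  have hX2 : (2 : ℝ) ≤ X := le_trans hX0 hX
  have hX2' : 2 ≤ X := by exact_mod_cast hX2
  have hXκ : (X : ℝ) ^ κ ≤ X := by
    calc (X : ℝ) ^ κ ≤ (X : ℝ) ^ (1 : ℝ) :=
          Real.rpow_le_rpow_of_exponent_le (by linarith) (by linarith)
      _ = X := Real.rpow_one _
  have hwX' : w ≤ X := le_trans hwX hXκ
  have hecase := e2_cases a
  -- primes at least 3 do not divide e2 a
  have hne2 : ∀ s : ℕ, s.Prime → 3 ≤ s → ¬ s ∣ e2 a := by
    intro s hs h3 hd
    rcases hecase with ⟨_, h1⟩ | ⟨_, h1⟩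
    · rw [h1] at hd
      have := Nat.le_of_dvd (by norm_num) hd
      omega
    · rw [h1] at hd
      have := Nat.le_of_dvd (by norm_num) hd
      omega
  have hnP : ∀ s : ℕ, s.Prime → (s : ℝ) ≤ w → ¬ s ∣ P := by
    intro s hs hsw hd
    have := hPp s hs hd
    linarith
  have hmem : ∀ s : ℕ, s.Prime → (s : ℝ) ≤ w → s ≤ ⌊w⌋₊ := by
    intro s hs hsw
    exact Nat.le_floor hsw
  have hQs : ∀ s ∈ (QQ w a).filter (fun s => ¬ s ∣ m), s.Prime ∧ 3 ≤ s ∧ (s : ℝ) ≤ w ∧
      ¬ (s : ℤ) ∣ a s ∧ ¬ s ∣ m := by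
    intro s hs
    rw [mem_filter, QQ, mem_filter, mem_Icc] at hs
    obtain ⟨⟨⟨h3, hsw⟩, hp, ha⟩, hm⟩ := hs
    refine ⟨hp, h3, ?_, ha, hm⟩
    exact le_trans (by exact_mod_cast hsw) (Nat.floor_le (by linarith))
  have hinv : ∀ s : ℕ, ∃ u : ℤ, s ∈ (QQ w a).filter (fun s => ¬ s ∣ m) →
      (s : ℤ) ∣ u * ((e2 a * m * P : ℕ) : ℤ) - 1 := by
    intro s
    by_cases hs : s ∈ (QQ w a).filter (fun s => ¬ s ∣ m)
    · obtain ⟨hp, h3, hsw, ha, hsm⟩ := hQs s hs
      have hcop : Nat.Coprime (e2 a * m * P) s := by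
        rw [Nat.coprime_comm, Nat.Prime.coprime_iff_not_dvd hp]
        intro hd
        rcases (Nat.Prime.dvd_mul hp).1 hd with hd | hd
        · rcases (Nat.Prime.dvd_mul hp).1 hd with hd | hd
          · exact hne2 s hp h3 hd
          · exact hsm hd
        · exact hnP s hp hsw hd
      have hic : IsCoprime ((e2 a * m * P : ℕ) : ℤ) (s : ℤ) := Nat.isCoprime_iff_coprime.2 hcop
      obtain ⟨u, v, huv⟩ := hic
      refine ⟨u, fun _ => ⟨-v, ?_⟩⟩
      linarith
    · exact ⟨0, fun h => absurd h hs⟩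
  choose u hu using hinv
  obtain ⟨F, hF1, hF2⟩ := H X hX ((QQ w a).filter (fun s => ¬ s ∣ m)) (fun s => a s * u s)
    (by
      intro s hs
      obtain ⟨hp, h3, hsw, ha, hsm⟩ := hQs s hs
      exact ⟨hp, h3, le_trans hsw hwX⟩)
    (by
      intro s hs hd
      obtain ⟨hp, h3, hsw, ha, hsm⟩ := hQs s hs
      have hpz : Prime (s : ℤ) := Nat.prime_iff_prime_int.1 hp
      rcases hpz.dvd_or_dvd hd with hd | hd
      · exact ha hd
      · have h1 := hu s hs
        have h2 : (s : ℤ) ∣ u s * ((e2 a * m * P : ℕ) : ℤ) := Dvd.dvd.mul_right hd _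
        have h3' : (s : ℤ) ∣ 1 := by
          have := dvd_sub h2 h1
          simpa using this
        exact hpz.not_isUnit (isUnit_of_dvd_one h3'))
  refine ⟨F, ?_, ?_⟩
  · intro q hq
    obtain ⟨hXq, hq2, hqp, hqs⟩ := hF1 q hq
    refine ⟨hXq, hq2, hqp, ?_⟩
    intro s hs hsw hcon
    have hsq : s ≠ q := by
      intro h
      have : (X : ℝ) < q := by exact_mod_cast hXq
      rw [← h] at this
      linarith
    have hnsq : ¬ s ∣ q := by
      intro hd
      rcases (Nat.dvd_prime hqp).1 hd with h | h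
      · exact hs.one_lt.ne' h
      · exact hsq h
    have hdiv : (s : ℤ) ∣ a s - ((e2 a * m * P * q : ℕ) : ℤ) := Int.modEq_iff_dvd.1 hcon
    rcases Nat.lt_or_ge s 3 with h3 | h3
    · -- the prime 2
      have hs2 : s = 2 := by
        have := hs.two_le
        omega
      subst hs2
      have h2B : (2 : ℕ) ∈ BB w a := by
        rw [BB, mem_filter, mem_Icc]
        exact ⟨⟨le_refl _, hmem 2 hs (by exact_mod_cast hw)⟩, hs, Or.inl rfl⟩
      have hm2 := hB 2 h2B
      have hP2 := hnP 2 hs hsw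
      have hodd : ¬ 2 ∣ m * P * q := by
        intro hd
        rcases (Nat.Prime.dvd_mul hs).1 hd with hd | hd
        · rcases (Nat.Prime.dvd_mul hs).1 hd with hd | hd
          · exact hm2 hd
          · exact hP2 hd
        · exact hnsq hd
      rcases hecase with ⟨ha, he⟩ | ⟨ha, he⟩
      · rw [he] at hdiv
        have h1 : (2 : ℤ) ∣ ((1 * m * P * q : ℕ) : ℤ) := by
          have := dvd_sub ha hdiv
          simpa using this
        apply hodd
        have h2 : (2 : ℕ) ∣ 1 * m * P * q := by exact_mod_cast h1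
        simpa using h2
      · rw [he] at hdiv
        apply ha
        have h1 : (2 : ℤ) ∣ ((2 * m * P * q : ℕ) : ℤ) := by
          have : (2 : ℕ) ∣ 2 * m * P * q := ⟨m * P * q, by ring⟩
          exact_mod_cast this
        have := dvd_add hdiv h1
        simpa using this
    · by_cases hsa : (s : ℤ) ∣ a s
      · have hsB : s ∈ BB w a := by
          rw [BB, mem_filter, mem_Icc]
          exact ⟨⟨by omega, hmem s hs hsw⟩, hs, Or.inr hsa⟩
        have h1 : (s : ℤ) ∣ ((e2 a * m * P * q : ℕ) : ℤ) := by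
          have := dvd_sub hsa hdiv
          simpa using this
        have h2 : s ∣ e2 a * m * P * q := by exact_mod_cast h1
        rcases (Nat.Prime.dvd_mul hs).1 h2 with hd | hd
        · rcases (Nat.Prime.dvd_mul hs).1 hd with hd | hd
          · rcases (Nat.Prime.dvd_mul hs).1 hd with hd | hd
            · exact hne2 s hs h3 hd
            · exact hB s hsB hd
          · exact hnP s hs hsw hd
        · exact hnsq hd
      · by_cases hsm : s ∣ m
        · apply hsa
          have h1 : (s : ℤ) ∣ ((e2 a * m * P * q : ℕ) : ℤ) := by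
            have : s ∣ e2 a * m * P * q := by
              have h4 : s ∣ e2 a * m := Dvd.dvd.mul_left hsm _
              exact Dvd.dvd.mul_right (Dvd.dvd.mul_right h4 _) _
            exact_mod_cast this
          have := dvd_add hdiv h1
          simpa using this
        · have hsQ : s ∈ (QQ w a).filter (fun s => ¬ s ∣ m) := by
            rw [mem_filter, QQ, mem_filter, mem_Icc]
            exact ⟨⟨⟨h3, hmem s hs hsw⟩, hs, hsa⟩, hsm⟩
          apply hqs s hsQ
          have h1 := hu s hsQ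
          -- q - a u = q - u n0 q + u (n0 q - a)
          have h2 : (q : ℤ) - a s * u s =
              -(q : ℤ) * (u s * ((e2 a * m * P : ℕ) : ℤ) - 1)
                - u s * (a s - ((e2 a * m * P * q : ℕ) : ℤ)) := by
            push_cast
            ring
          show (s : ℤ) ∣ (q : ℤ) - a s * u s
          rw [h2]
          exact dvd_sub (Dvd.dvd.mul_left h1 _) (Dvd.dvd.mul_left hdiv _)
  · refine le_trans ?_ hF2
    have hlog : 0 < Real.log X := Real.log_pos (by linarith)
    have h01 : ∀ s ∈ QQ w a, 0 ≤ 1 - 1 / ((s : ℝ) - 1) ∧ 1 - 1 / ((s : ℝ) - 1) ≤ 1 := by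
      intro s hs
      rw [QQ, mem_filter, mem_Icc] at hs
      have h3 : (3 : ℝ) ≤ s := by exact_mod_cast hs.1.1
      have hp : (0 : ℝ) < (s : ℝ) - 1 := by linarith
      constructor
      · rw [sub_nonneg, div_le_one hp]
        linarith
      · have : 0 ≤ 1 / ((s : ℝ) - 1) := by positivity
        linarith
    apply mul_le_mul_of_nonneg_left
    · exact prod_le_prod_of_subset_of_le_one (filter_subset _ _) (fun i hi => (h01 i hi).1)
        (fun i hi _ => (h01 i hi).2)
    · positivity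

end Pool.Agent.Helper71.RS
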